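import Mathlib

set_option autoImplicit false

namespace Pool.Agent.Results.MP_00f561_co.Counterexample

abbrev E := EuclideanSpace ℝ (Fin 3)

/-- A round circle: the points at distance `ρ > 0` from `c` in the plane through `c` with
normal vector `n ≠ 0`. -/
def IsCircle (C : Set E) : Prop :=
  ∃ (n c : E) (ρ : ℝ), n ≠ 0 ∧ 0 < ρ ∧ C = {x | inner ℝ n (x - c) = 0 ∧ dist x c = ρ}

noncomputable def h (s : ℝ) : ℝ := √(1600 - s ^ 2)

def blue (s : ℝ) : Set E := {x | x 2 = h s ∧ (x 0 - s) ^ 2 + x 1 ^ 2 = 1600}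

def red (t : ℝ) : Set E := {x | x 1 = h t ∧ (x 0 - t) ^ 2 + x 2 ^ 2 = 1600}

lemma sq40 (a : ℝ) : √a = 40 ↔ a = 1600 := by
  constructor
  · intro e
    have h0 : 0 ≤ a := by
      by_contra hn
      rw [Real.sqrt_eq_zero'.2 (not_le.1 hn).le] at e
      norm_num at e
    have := Real.sq_sqrt h0
    rw [e] at this
    linarith
  · rintro rfl
    rw [show (1600 : ℝ) = 40 ^ 2 by norm_num, Real.sqrt_sq (by norm_num)]

lemma blue_circle (s : ℝ) : IsCircle (blue s) := by
  refine ⟨!₂[0, 0, 1], !₂[s, 0, h s], 40, fun e => ?_, by norm_num, ?_⟩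
  · have := congrArg (fun v : E => v 2) e
    simp at this
  · ext x
    simp only [blue, Set.mem_setOf_eq, EuclideanSpace.dist_eq, sq40, PiLp.inner_apply,
      Fin.sum_univ_three, Real.dist_eq, sq_abs]
    simp only [PiLp.sub_apply]
    simp [sub_eq_zero]
    intro e
    rw [e]
    simp

lemma red_circle (s : ℝ) : IsCircle (red s) := by
  refine ⟨!₂[0, 1, 0], !₂[s, h s, 0], 40, fun e => ?_, by norm_num, ?_⟩
  · have := congrArg (fun v : E => v 1) e
    simp at this
  · ext x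
    simp only [red, Set.mem_setOf_eq, EuclideanSpace.dist_eq, sq40, PiLp.inner_apply,
      Fin.sum_univ_three, Real.dist_eq, sq_abs]
    simp only [PiLp.sub_apply]
    simp [sub_eq_zero]
    intro e
    rw [e]
    simp

lemma hsq {s : ℝ} (h0 : 0 < s) (h1 : s < 40) : h s ^ 2 = 1600 - s ^ 2 :=
  Real.sq_sqrt (by nlinarith)

lemma hinj {s t : ℝ} (h0 : 0 < s) (h1 : s < 40) (h2 : 0 < t) (h3 : t < 40) (e : h s = h t) :
    s = t := by
  have a := hsq h0 h1
  have b := hsq h2 h3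
  rw [e] at a
  exact (pow_left_inj₀ h0.le h2.le two_ne_zero).1 (by linarith)

lemma uniq {s t : ℝ} (h0 : 0 < s) (h1 : s < 40) (h2 : 0 < t) (h3 : t < 40) (e : s ≠ t) :
    ∃! x, x ∈ blue s ∩ red t := by
  have a := hsq h0 h1
  have b := hsq h2 h3
  refine ⟨!₂[s + t, h t, h s], ⟨⟨by simp, by simp; linarith⟩, ⟨by simp, by simp; linarith⟩⟩, ?_⟩
  rintro x ⟨⟨p1, p2⟩, ⟨q1, q2⟩⟩
  rw [q1] at p2
  rw [p1] at q2
  have k : (s - t) * (x 0 - (s + t)) = 0 := by nlinarith
  have k2 : x 0 = s + t := by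
    rcases mul_eq_zero.1 k with k | k
    · exact absurd (by linarith) e
    · linarith
  ext i
  fin_cases i <;> simp [k2, p1, q1]

def sb (i : Fin 10) : ℕ := 2 * i.1 + 1

def tr (j : Fin 10) : ℕ := if j = 0 then 1 else 2 * j.1

theorem result : ∃ B R : Fin 10 → Set E, (∀ i, IsCircle (B i)) ∧ (∀ j, IsCircle (R j)) ∧
    (∀ i i', i ≠ i' → Disjoint (B i) (B i')) ∧ (∀ j j', j ≠ j' → Disjoint (R j) (R j')) ∧
    (∀ i j, (i, j) ≠ (0, 0) → ∃! x, x ∈ B i ∩ R j) ∧ ¬ ∃! x, x ∈ B 0 ∩ R 0 := by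
  have s0 : ∀ i, (0 : ℝ) < sb i := fun i => by
    exact_mod_cast (by revert i; decide : 0 < sb i)
  have s1 : ∀ i, (sb i : ℝ) < 40 := fun i => by
    exact_mod_cast (by revert i; decide : sb i < 40)
  have t0 : ∀ i, (0 : ℝ) < tr i := fun i => by
    exact_mod_cast (by revert i; decide : 0 < tr i)
  have t1 : ∀ i, (tr i : ℝ) < 40 := fun i => by
    exact_mod_cast (by revert i; decide : tr i < 40)
  have si : ∀ i j, sb i = sb j → i = j := by decide
  have ti : ∀ i j, tr i = tr j → i = j := by decide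
  have st : ∀ i j, sb i = tr j → (i, j) = (0, 0) := by decide
  refine ⟨fun i => blue (sb i), fun j => red (tr j), fun i => blue_circle _,
    fun j => red_circle _, fun i j hij => ?_, fun i j hij => ?_, fun i j hij => ?_, ?_⟩
  · refine Set.disjoint_left.2 fun x hx hy => hij (si i j ?_)
    exact_mod_cast hinj (s0 i) (s1 i) (s0 j) (s1 j) (hx.1.symm.trans hy.1)
  · refine Set.disjoint_left.2 fun x hx hy => hij (ti i j ?_)
    exact_mod_cast hinj (t0 i) (t1 i) (t0 j) (t1 j) (hx.1.symm.trans hy.1)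
  · exact uniq (s0 i) (s1 i) (t0 j) (t1 j) fun e => hij (st i j (by exact_mod_cast e))
  · rintro ⟨x, -, hu⟩
    have a := hsq (s := 1) one_pos (by norm_num)
    have e1 : ((sb 0 : ℕ) : ℝ) = 1 := by simp [sb]
    have e2 : ((tr 0 : ℕ) : ℝ) = 1 := by simp [tr]
    simp only [e1, e2] at hu
    have u1 := hu !₂[2, h 1, h 1]
      ⟨⟨by simp, by simp; linarith⟩, ⟨by simp, by simp; linarith⟩⟩
    have u2 := hu !₂[0, h 1, h 1]
      ⟨⟨by simp, by simp; linarith⟩, ⟨by simp, by simp; linarith⟩⟩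
    have := congrArg (fun v : E => v 0) (u1.trans u2.symm)
    simp at this

end Pool.Agent.Results.MP_00f561_co.Counterexample
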